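import Mathlib
import Pool.Agent.MP_2b113a_an.H33.LieC

/-!
A fixed multiple of a lowest vector is a bounded sum of homogeneous vectors and brackets.
-/

namespace Pool.Agent.MP_2b113a_an.H2

open Pool.Agent.MP_2b113a_an.H33 Polynomial

/-! ### Denominators -/

section Den

variable {M : Type} [AddCommGroup M] [Module ℚ M] {Λ : Submodule ℤ M}

theorem nat_smul_mem {x : M} (h : x ∈ Λ) (t : ℕ) : (t : ℚ) • x ∈ Λ := by
  rw [Nat.cast_smul_eq_nsmul]; exact nsmul_mem h t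

theorem int_smul_mem {x : M} (h : x ∈ Λ) (t : ℤ) : (t : ℚ) • x ∈ Λ := by
  rw [Int.cast_smul_eq_zsmul]; exact zsmul_mem h t

theorem den_smul (c : ℚ) (x : M) : (c.den : ℚ) • c • x = (c.num : ℚ) • x := by
  rw [smul_smul, mul_comm, Rat.mul_den_eq_num]

/-- `N • f` preserves the lattice. -/
def Itg (Λ : Submodule ℤ M) (N : ℕ) (f : Module.End ℚ M) : Prop := ∀ x ∈ Λ, (N : ℚ) • f x ∈ Λ

theorem Itg.mul {N N' : ℕ} {f g : Module.End ℚ M} (hf : Itg Λ N f) (hg : Itg Λ N' g) :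
    Itg Λ (N * N') (f * g) := fun x hx => by
  have := hf _ (hg x hx)
  rwa [map_smul, smul_smul, ← Nat.cast_mul] at this

theorem Itg.add {N N' : ℕ} {f g : Module.End ℚ M} (hf : Itg Λ N f) (hg : Itg Λ N' g) :
    Itg Λ (N * N') (f + g) := fun x hx => by
  rw [LinearMap.add_apply, smul_add, Nat.cast_mul]
  refine add_mem ?_ ?_
  · rw [mul_comm, mul_smul]; exact nat_smul_mem (hf x hx) _
  · rw [mul_smul]; exact nat_smul_mem (hg x hx) _

theorem itg_algebraMap (c : ℚ) : Itg Λ c.den (algebraMap ℚ (Module.End ℚ M) c) := fun x hx => by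
  rw [Module.algebraMap_end_apply, den_smul]
  exact int_smul_mem hx _

theorem itg_zero : Itg Λ 1 0 := fun x _ => by simp

theorem itg_adjoin {S : Set (Module.End ℚ M)} (h : ∀ f ∈ S, ∃ N, 0 < N ∧ Itg Λ N f)
    {a : Module.End ℚ M} (ha : a ∈ Algebra.adjoin ℚ S) : ∃ N, 0 < N ∧ Itg Λ N a := by
  induction ha using Algebra.adjoin_induction with
  | mem x hx => exact h x hx
  | algebraMap c => exact ⟨c.den, c.den_pos, itg_algebraMap c⟩
  | add x y _ _ hx hy =>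
    obtain ⟨N, hN, h1⟩ := hx
    obtain ⟨N', hN', h2⟩ := hy
    exact ⟨N * N', mul_pos hN hN', h1.add h2⟩
  | mul x y _ _ hx hy =>
    obtain ⟨N, hN, h1⟩ := hx
    obtain ⟨N', hN', h2⟩ := hy
    exact ⟨N * N', mul_pos hN hN', h1.mul h2⟩

theorem itg_aeval {D : ℕ} (hD : 0 < D) (p : ℚ[X]) :
    ∃ N, 0 < N ∧ ∀ f, Itg Λ D f → Itg Λ N (aeval f p) := by
  induction p using Polynomial.induction_on with
  | C c => exact ⟨c.den, c.den_pos, fun f _ => by rw [aeval_C]; exact itg_algebraMap c⟩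
  | add p q hp hq =>
    obtain ⟨N, hN, h1⟩ := hp
    obtain ⟨N', hN', h2⟩ := hq
    exact ⟨N * N', mul_pos hN hN', fun f hf => by rw [map_add]; exact (h1 f hf).add (h2 f hf)⟩
  | monomial k c hp =>
    obtain ⟨N, hN, h1⟩ := hp
    refine ⟨N * D, mul_pos hN hD, fun f hf => ?_⟩
    rw [pow_succ, ← mul_assoc, map_mul, aeval_X]
    exact (h1 f hf).mul hf

theorem itg_list {D : ℕ} (hD : 0 < D) (l : List (Module.End ℚ M × Module.End ℚ M))
    (h : ∀ a ∈ l, (∃ N, 0 < N ∧ Itg Λ N a.1) ∧ ∃ N, 0 < N ∧ Itg Λ N a.2) :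
    ∃ N, 0 < N ∧ ∀ e, Itg Λ D e → Itg Λ N (l.map fun a => a.1 * e * a.2).sum := by
  induction l with
  | nil => exact ⟨1, one_pos, fun _ _ => itg_zero⟩
  | cons a l ih =>
    obtain ⟨N, hN, h1⟩ := ih fun a ha => h a (List.mem_cons_of_mem _ ha)
    obtain ⟨⟨N₁, hN₁, h2⟩, N₂, hN₂, h3⟩ := h a List.mem_cons_self
    refine ⟨N₁ * D * N₂ * N, by positivity, fun e he => ?_⟩
    rw [List.map_cons, List.sum_cons]
    exact ((h2.mul he).mul h3).add (h1 e he)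

/-! ### Bounded sums -/

/-- Sums of at most `K` vectors with property `P`. -/
def Sm (P : M → Prop) (K : ℕ) (y : M) : Prop :=
  ∃ l : List M, l.length ≤ K ∧ l.sum = y ∧ ∀ z ∈ l, P z

variable {P : M → Prop}

omit [Module ℚ M] in
theorem sm_zero (K : ℕ) : Sm P K 0 := ⟨[], Nat.zero_le _, rfl, by simp⟩

omit [Module ℚ M] in
theorem sm_one {z : M} (h : P z) : Sm P 1 z := ⟨[z], le_rfl, by simp, by simpa using h⟩

omit [Module ℚ M] in
theorem Sm.mono {K K' : ℕ} {y : M} (h : Sm P K y) (hK : K ≤ K') : Sm P K' y :=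
  let ⟨l, h1, h2⟩ := h
  ⟨l, h1.trans hK, h2⟩

omit [Module ℚ M] in
theorem Sm.add {K K' : ℕ} {y y' : M} (h : Sm P K y) (h' : Sm P K' y') :
    Sm P (K + K') (y + y') := by
  obtain ⟨l, h1, h2, h3⟩ := h
  obtain ⟨l', h4, h5, h6⟩ := h'
  refine ⟨l ++ l', by rw [List.length_append]; omega, by rw [List.sum_append, h2, h5],
    fun z hz => ?_⟩
  rcases List.mem_append.1 hz with h | h
  exacts [h3 z h, h6 z h]

omit [Module ℚ M] in
theorem sm_sum {ι : Type} {K : ℕ} {f : ι → M} (F : Finset ι) (h : ∀ i ∈ F, Sm P K (f i)) :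
    Sm P (F.card * K) (∑ i ∈ F, f i) := by
  classical
  induction F using Finset.induction_on with
  | empty => simpa using sm_zero 0
  | insert a F ha ih =>
    rw [Finset.sum_insert ha, Finset.card_insert_of_notMem ha, add_mul, one_mul, add_comm _ K]
    exact (h a (Finset.mem_insert_self _ _)).add
      (ih fun i hi => h i (Finset.mem_insert_of_mem hi))

theorem Sm.map {K K' : ℕ} {y : M} (h : Sm P K y) (f : Module.End ℚ M)
    (hf : ∀ z, P z → Sm P K' (f z)) : Sm P (K * K') (f y) := by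
  obtain ⟨l, h1, rfl, h3⟩ := h
  refine Sm.mono ?_ (Nat.mul_le_mul_right K' h1)
  clear h1
  induction l with
  | nil => simpa using sm_zero 0
  | cons a l ih =>
    rw [List.sum_cons, map_add, List.length_cons, add_mul, one_mul, add_comm _ K']
    exact (hf a (h3 a List.mem_cons_self)).add (ih fun z hz => h3 z (List.mem_cons_of_mem _ hz))

theorem Sm.int_smul (hP : ∀ (t : ℤ) z, P z → P ((t : ℚ) • z)) {K : ℕ} {y : M} (h : Sm P K y)
    (t : ℤ) : Sm P K ((t : ℚ) • y) := by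
  have := h.map (K' := 1) (algebraMap ℚ (Module.End ℚ M) t) fun z hz => sm_one (hP t z hz)
  rwa [mul_one] at this

theorem Sm.nat_smul (hP : ∀ (t : ℤ) z, P z → P ((t : ℚ) • z)) {K : ℕ} {y : M} (h : Sm P K y)
    (t : ℕ) : Sm P K ((t : ℚ) • y) := by
  simpa using h.int_smul hP t

variable {I : Type} {A : ℕ → I → Prop} {Q : I → M → Prop}

/-- Families of vectors with uniformly bounded sums. -/
def Good (A : ℕ → I → Prop) (Q : I → M → Prop) (v : I → M) : Prop :=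
  ∃ K : ℕ, ∀ D : ℕ, 0 < D → ∃ N : ℕ, 0 < N ∧ ∀ i, A D i → Sm (Q i) K ((N : ℚ) • v i)

theorem good_zero : Good A Q fun _ => 0 :=
  ⟨0, fun _ _ => ⟨1, one_pos, fun _ _ => by simpa using sm_zero 0⟩⟩

theorem Good.add (hQ : ∀ i (t : ℤ) z, Q i z → Q i ((t : ℚ) • z)) {v w : I → M}
    (hv : Good A Q v) (hw : Good A Q w) : Good A Q fun i => v i + w i := by
  obtain ⟨K, h1⟩ := hv
  obtain ⟨K', h2⟩ := hw
  refine ⟨K + K', fun D hD => ?_⟩
  obtain ⟨N, hN, h3⟩ := h1 D hD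
  obtain ⟨N', hN', h4⟩ := h2 D hD
  refine ⟨N * N', mul_pos hN hN', fun i hi => ?_⟩
  rw [smul_add, Nat.cast_mul]
  refine Sm.add ?_ ?_
  · rw [mul_comm, mul_smul]; exact (h3 i hi).nat_smul (hQ i) _
  · rw [mul_smul]; exact (h4 i hi).nat_smul (hQ i) _

theorem Good.smul (hQ : ∀ i (t : ℤ) z, Q i z → Q i ((t : ℚ) • z)) {v : I → M}
    (hv : Good A Q v) (c : ℚ) : Good A Q fun i => c • v i := by
  obtain ⟨K, h1⟩ := hv
  refine ⟨K, fun D hD => ?_⟩
  obtain ⟨N, hN, h3⟩ := h1 D hD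
  refine ⟨N * c.den, mul_pos hN c.den_pos, fun i hi => ?_⟩
  rw [Nat.cast_mul, mul_smul, den_smul, smul_comm]
  exact (h3 i hi).int_smul (hQ i) _

theorem Good.map {v : I → M} (hv : Good A Q v) {f : Module.End ℚ M} {K' : ℕ}
    (hf : ∀ D : ℕ, 0 < D → ∃ N : ℕ, 0 < N ∧ ∀ i, A D i → ∀ z, Q i z →
      Sm (Q i) K' ((N : ℚ) • f z)) : Good A Q fun i => f (v i) := by
  obtain ⟨K, h1⟩ := hv
  refine ⟨K * K', fun D hD => ?_⟩
  obtain ⟨N, hN, h3⟩ := h1 D hD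
  obtain ⟨N', hN', h4⟩ := hf D hD
  refine ⟨N' * N, mul_pos hN' hN, fun i hi => ?_⟩
  have := (h3 i hi).map ((N' : ℚ) • f) (h4 i hi)
  rwa [LinearMap.smul_apply, map_smul, smul_smul, ← Nat.cast_mul] at this

theorem good_adjoin (hQ : ∀ i (t : ℤ) z, Q i z → Q i ((t : ℚ) • z)) {S : Set (Module.End ℚ M)}
    (h : ∀ f ∈ S, ∀ v, Good A Q v → Good A Q fun i => f (v i))
    {a : Module.End ℚ M} (ha : a ∈ Algebra.adjoin ℚ S) :
    ∀ v, Good A Q v → Good A Q fun i => a (v i) := by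
  induction ha using Algebra.adjoin_induction with
  | mem x hx => exact h x hx
  | algebraMap c => exact fun v hv => hv.smul hQ c
  | add x y _ _ hx hy => exact fun v hv => (hx v hv).add hQ (hy v hv)
  | mul x y _ _ hx hy => exact fun v hv => hx _ (hy v hv)

theorem good_list (hQ : ∀ i (t : ℤ) z, Q i z → Q i ((t : ℚ) • z)) {ι : Type} (l : List ι)
    (f : I → ι → Module.End ℚ M) (v : I → M) (h : ∀ a ∈ l, Good A Q fun i => f i a (v i)) :
    Good A Q fun i => (l.map (f i)).sum (v i) := by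
  induction l with
  | nil => exact good_zero
  | cons a l ih =>
    exact (h a List.mem_cons_self).add hQ (ih fun a ha => h a (List.mem_cons_of_mem _ ha))

end Den

theorem map_eq_bot_of_inj {M M' : Type} [AddCommGroup M] [Module ℚ M] [AddCommGroup M']
    [Module ℚ M'] {W : Submodule ℚ M} {f : M →ₗ[ℚ] M'} (hf : Function.Injective f) :
    W.map f = ⊥ ↔ W = ⊥ := by
  rw [← Submodule.map_bot f, (Submodule.map_injective_of_injective hf).eq_iff]

/-! ### The lowest eigenspace -/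

variable {L : Type} [LieRing L] [LieAlgebra ℚ L] {τ : Tor L} (π : Pair τ)

/-- The opposite parabolic subalgebra. -/
abbrev Pm : Submodule ℚ L := par (-(π.s₂ : L))

/-- The lowest eigenspace. -/
abbrev Lo : Submodule ℚ L := eig (π.s₂ : L) π.d

theorem lie_mem_lo {x t : L} (hx : x ∈ Pm π) (ht : t ∈ Lo π) : ⁅x, t⁆ ∈ Lo π := by
  rw [Pm, par_eq, fil_neg] at hx
  have h1 : ⁅x, t⁆ ∈ fil (π.s₂ : L) (· ≤ π.d) :=
    lie_mem_fil (fun c d (hc : 0 ≤ -c) (hd : d = π.d) => by linarith) hx (mem_fil_eq ht)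
  refine (fil_le fun c (hc : c ≤ π.d) => ?_) h1
  rcases eq_or_lt_of_le hc with h | h
  · exact h ▸ le_rfl
  · rw [π.low c h]; exact bot_le

/-- The action of the opposite parabolic subalgebra on the lowest eigenspace. -/
def res (x : Pm π) : Module.End ℚ (Lo π) := (ad (x : L)).restrict fun _ ht => lie_mem_lo π x.2 ht

@[simp] theorem res_apply (x : Pm π) (t : Lo π) : (res π x t : L) = ⁅(x : L), (t : L)⁆ := rfl

theorem s₁_mem : (π.s₁ : L) ∈ Pm π :=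
  mem_par le_rfl (mem_eig_zero.2 (by rw [neg_lie, τ.comm _ π.s₂.2 _ π.s₁.2, neg_zero]))

theorem res_irr (W : Submodule ℚ (Lo π)) (h : ∀ f ∈ Set.range (res π), ∀ w ∈ W, f w ∈ W) :
    W = ⊥ ∨ W = ⊤ := by
  rw [or_iff_not_imp_left]
  intro h0
  have := π.irr (W.map (Lo π).subtype) (fun h1 => h0 (by
    rwa [map_eq_bot_of_inj (Lo π).injective_subtype] at h1)) (by
    rintro x hx _ ⟨w, hw, rfl⟩
    exact ⟨res π ⟨x, hx⟩ w, h _ ⟨_, rfl⟩ w hw, rfl⟩)
  refine top_le_iff.1 fun t _ => ?_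
  obtain ⟨w, hw, e⟩ := this t.2
  exact (Subtype.ext e : w = t) ▸ hw

variable [Module.Finite ℚ L]

theorem trace_ne : LinearMap.trace ℚ (Lo π) (res π ⟨_, s₁_mem π⟩) ≠ 0 := by
  intro h0
  have hs := τ.diag' π.s₁
  have hst : ∀ y ∈ Lo π, ⁅(π.s₁ : L), y⁆ ∈ Lo π := fun y hy => lie_mem_lo π (s₁_mem π) hy
  let p : ℚ → Module.End ℚ (Lo π) := fun c =>
    (prj (π.s₁ : L) c).restrict fun _ ht => prj_mem_of_stable hst ht c
  have hp : ∀ c t, (p c t : L) = prj (π.s₁ : L) c t := fun _ _ => rfl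
  have htr : ∀ c, LinearMap.trace ℚ (Lo π) (p c) =
      Module.finrank ℚ ((eig (π.s₁ : L) c).comap (Lo π).subtype) := fun c =>
    LinearMap.IsProj.trace ⟨fun x => hs.prj_mem c x, fun x hx => Subtype.ext (prj_self hx)⟩
  have he : res π ⟨_, s₁_mem π⟩ = ∑ c ∈ spec (π.s₁ : L), c • p c := by
    ext t
    rw [res_apply, LinearMap.sum_apply, Submodule.coe_sum]
    conv_lhs => rw [← hs.sum_prj_apply t]
    rw [lie_sum]
    exact Finset.sum_congr rfl fun c _ => mem_eig.1 (hs.prj_mem c t)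
  have hle : Lo π ≤ fil (π.s₁ : L) (· ≤ 0) := τ.eig_le fun β e hβ => by
    have h1 := π.compat β hβ
    rw [e] at h1
    exact (τ.wt_le_eig β π.s₁).trans (eig_le_fil (p := (· ≤ 0))
      (nonpos_of_mul_nonneg_left h1 π.d_neg))
  have hpos : ∀ c, 0 < c → p c = 0 := fun c hc =>
    LinearMap.ext fun t => Subtype.ext (prj_eq_zero_of_mem_fil (hle t.2) (not_le.2 hc))
  have hterm : ∀ c ∈ spec (π.s₁ : L), c * LinearMap.trace ℚ (Lo π) (p c) ≤ 0 := fun c _ => by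
    rcases le_or_gt c 0 with h | h
    · rw [htr]; exact mul_nonpos_of_nonpos_of_nonneg h (Nat.cast_nonneg _)
    · simp [hpos c h]
  rw [he, map_sum] at h0
  simp only [map_smul, smul_eq_mul] at h0
  have h1 := (Finset.sum_eq_zero_iff_of_nonpos hterm).1 h0
  obtain ⟨t, ht, hne⟩ := π.nz
  refine hne ?_
  have h2 := congrArg Subtype.val (LinearMap.congr_fun he ⟨t, ht⟩)
  rw [res_apply] at h2
  rw [h2, LinearMap.sum_apply, Finset.sum_eq_zero, Submodule.coe_zero]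
  intro c hc
  rcases mul_eq_zero.1 (h1 c hc) with h | h
  · simp [h]
  · rw [htr, Nat.cast_eq_zero, Submodule.finrank_eq_zero] at h
    have h3 : p c ⟨t, ht⟩ ∈ (eig (π.s₁ : L) c).comap (Lo π).subtype := hs.prj_mem c t
    rw [h, Submodule.mem_bot] at h3
    simp [h3]

theorem adm_spec (ht : TRStmt) {s : L} (hs : Adm π s) :
    Diag s ∧ spec s = spec (π.s₁ : L) := by
  obtain ⟨-, g, hg, -, hn⟩ := hs
  have h1 := τ.diag' π.s₁
  obtain ⟨l, c1, c2, c3⟩ := τ.exists_cflag π.s₁ (Module.finBasis ℚ L)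
  have c4 : ∀ z ∈ l, ∃ d : ℚ, 0 < d ∧ z ∈ eig (π.s₁ : L) d := fun z hz =>
    let ⟨β, h, h'⟩ := (c3 z hz).2
    ⟨_, h, τ.wt_le_eig β _ h'⟩
  obtain ⟨l', h2, h3⟩ := (ht L _ h1 l c1 c4).1 _ (c2 ▸ hn)
  have hu : IsAut (l'.map ex).prod := isAut_prod_ex fun x hx => by
    obtain ⟨i, hi, rfl⟩ := List.getElem_of_mem hx
    obtain ⟨t, e⟩ := h2.get hi (h2.length_eq ▸ hi)
    obtain ⟨d, hd, hz⟩ := c4 _ (List.get_mem l ⟨i, h2.length_eq ▸ hi⟩)
    have := (h1.nil_of_mem_eig hd.ne' hz).smul t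
    rwa [← e] at this
  obtain ⟨g', hg', -, e⟩ := hg.exists_inv
  have hw := hg'.mul hu
  have e2 : (g' * (l'.map ex).prod) π.s₁ = s := by
    rw [Module.End.mul_apply, h3, add_sub_cancel]
    exact LinearMap.congr_fun e s
  refine ⟨e2 ▸ hw.diag h1, Finset.ext fun c => ?_⟩
  rw [mem_spec, mem_spec, ← e2, ← hw.map_eig, Ne, map_eq_bot_of_inj hw.bij.1]

theorem adm_conj {s : Pm π} (hs : Adm π (s : L)) :
    ∃ g g' y : Module.End ℚ (Lo π), g * g' = 1 ∧ g' * g = 1 ∧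
      (∀ f ∈ Set.range (res π), g * f * g' ∈ Set.range (res π) ∧
        g' * f * g ∈ Set.range (res π)) ∧
      g * res π s * g' =
        res π ⟨_, s₁_mem π⟩ + (res π ⟨_, s₁_mem π⟩ * y - y * res π ⟨_, s₁_mem π⟩) := by
  obtain ⟨-, g, hg, hm, hn⟩ := hs
  obtain ⟨g', hg', e1, e2⟩ := hg.exists_inv
  have e1' : ∀ x, g (g' x) = x := LinearMap.congr_fun e1
  have e2' : ∀ x, g' (g x) = x := LinearMap.congr_fun e2
  have hT : Lo π = (Lo π).map g := by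
    refine Submodule.eq_of_le_of_finrank_eq (π.irr _ (fun h => π.low_ne (by
      rwa [map_eq_bot_of_inj hg.bij.1] at h)) ?_) ?_
    · rintro x hx _ ⟨t, ht, rfl⟩
      rw [← hm] at hx
      obtain ⟨x, hx, rfl⟩ := hx
      exact ⟨⁅x, t⁆, lie_mem_lo π hx ht, hg.lie x t⟩
    · exact (Submodule.equivMapOfInjective g hg.bij.1 _).finrank_eq
  have a1 : ∀ t ∈ Lo π, g t ∈ Lo π := fun t ht => hT.ge ⟨t, ht, rfl⟩
  have a2 : ∀ t ∈ Lo π, g' t ∈ Lo π := fun t ht => by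
    obtain ⟨u, hu, rfl⟩ := hT.le ht
    rwa [e2']
  have a3 : ∀ t ∈ Pm π, g t ∈ Pm π := fun t ht => hm.le ⟨t, ht, rfl⟩
  have a4 : ∀ t ∈ Pm π, g' t ∈ Pm π := fun t ht => by
    obtain ⟨u, hu, rfl⟩ := hm.ge ht
    rwa [e2']
  have h1 := τ.diag' π.s₁
  have hW : Pm π ⊓ pos (π.s₁ : L) ≤ (Pm π).map (ad (π.s₁ : L)) :=
    h1.le_of_stable (fun y hy => ⟨lie_mem_par (s₁_mem π) hy.1,
      lie_par_pos (self_mem_par _) hy.2⟩) fun c x hx hc => by
      by_cases h0 : c = 0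
      · have := prj_eq_zero_of_mem_fil (p := (0 < ·)) hx.2 (lt_irrefl 0)
        rw [prj_self (h0 ▸ hc)] at this
        rw [this]; exact zero_mem _
      · refine ⟨c⁻¹ • x, Submodule.smul_mem _ _ hx.1, ?_⟩
        rw [ad_apply, lie_smul, mem_eig.1 hc, smul_smul, inv_mul_cancel₀ h0, one_smul]
  obtain ⟨n', hn', e3⟩ := hW ⟨sub_mem (a3 _ s.2) (s₁_mem π), hn⟩
  refine ⟨g.restrict a1, g'.restrict a2, res π ⟨n', hn'⟩,
    LinearMap.ext fun t => Subtype.ext (e1' t), LinearMap.ext fun t => Subtype.ext (e2' t),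
    ?_, LinearMap.ext fun t => Subtype.ext ?_⟩
  · rintro _ ⟨x, rfl⟩
    refine ⟨⟨⟨g x, a3 _ x.2⟩, LinearMap.ext fun t => Subtype.ext ?_⟩,
      ⟨⟨g' x, a4 _ x.2⟩, LinearMap.ext fun t => Subtype.ext ?_⟩⟩
    · show ⁅g x, (t : L)⁆ = g ⁅(x : L), g' t⁆
      rw [hg.lie, e1']
    · show ⁅g' x, (t : L)⁆ = g' ⁅(x : L), g t⁆
      rw [hg'.lie, e2']
  · show g ⁅(s : L), g' t⁆ = ⁅(π.s₁ : L), (t : L)⁆ +
      (⁅(π.s₁ : L), ⁅n', (t : L)⁆⁆ - ⁅n', ⁅(π.s₁ : L), (t : L)⁆⁆)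
    rw [hg.lie, e1', ← lie_lie, ← add_lie, ← ad_apply (π.s₁ : L) n', e3, add_sub_cancel]

/-! ### Typed vectors -/

variable {n : ℕ} (b : Module.Basis (Fin n) ℚ L)

/-- Homogeneous vectors of nonzero degree and brackets of opposite degrees. -/
def Ty (s : Pm π) (z : Lo π) : Prop :=
  ∃ d : ℚ, d ≠ 0 ∧ (((z : L) ∈ lat b ∧ (z : L) ∈ eig (s : L) d) ∨
    ∃ (x : Pm π) (t : Lo π), (x : L) ∈ lat b ∧ (x : L) ∈ eig (s : L) d ∧
      (t : L) ∈ lat b ∧ (t : L) ∈ eig (s : L) (-d) ∧ z = res π x t)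

/-- Admissible elements with denominator `D`. -/
def Lv (D : ℕ) (s : Pm π) : Prop := Adm π (s : L) ∧ (D : ℚ) • (s : L) ∈ lat b

/-- The lattice in the lowest eigenspace. -/
def latLo : Submodule ℤ (Lo π) := (lat b).comap ((Lo π).subtype.restrictScalars ℤ)

omit [Module.Finite ℚ L] in
theorem ty_smul (s : Pm π) (k : ℤ) (z : Lo π) (h : Ty π b s z) : Ty π b s ((k : ℚ) • z) := by
  obtain ⟨d, hd, ⟨h1, h2⟩ | ⟨x, t, h1, h2, h3, h4, rfl⟩⟩ := h
  · exact ⟨d, hd, Or.inl ⟨lat_int_smul h1 k, Submodule.smul_mem _ _ h2⟩⟩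
  · exact ⟨d, hd, Or.inr ⟨x, (k : ℚ) • t, h1, h2, lat_int_smul h3 k, Submodule.smul_mem _ _ h4,
      (map_smul _ _ _).symm⟩⟩

variable {b} (hb : ∀ x ∈ lat b, ∀ y ∈ lat b, ⁅x, y⁆ ∈ lat b)

include hb

omit [Module.Finite ℚ L] in
theorem ty_lie (s y : Pm π) {c : ℚ} (h1 : (y : L) ∈ lat b) (h2 : (y : L) ∈ eig (s : L) c)
    (z : Lo π) (hz : Ty π b s z) : Sm (Ty π b s) 2 (res π y z) := by
  obtain ⟨d, hd, ⟨h3, h4⟩ | ⟨x, t, h3, h4, h5, h6, rfl⟩⟩ := hz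
  · refine (sm_one ?_).mono one_le_two
    by_cases h0 : c + d = 0
    · have e : d = -c := by linarith
      exact ⟨c, fun h => hd (by rw [e, h, neg_zero]), Or.inr ⟨y, z, h1, h2, h3, e ▸ h4, rfl⟩⟩
    · exact ⟨c + d, h0, Or.inl ⟨hb _ h1 _ h3, lie_mem_eig h2 h4⟩⟩
  · by_cases h0 : c = 0
    · subst h0
      have e : res π y (res π x t) =
          res π ⟨⁅(y : L), (x : L)⁆, lie_mem_par y.2 x.2⟩ t + res π x (res π y t) :=
        Subtype.ext (leibniz_lie (y : L) (x : L) (t : L))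
      rw [e]
      exact (sm_one ⟨d, hd, Or.inr ⟨_, t, hb _ h1 _ h3, zero_add d ▸ lie_mem_eig h2 h4, h5, h6,
        rfl⟩⟩).add (sm_one ⟨d, hd, Or.inr ⟨x, _, h3, h4, hb _ h1 _ h5,
          zero_add (-d) ▸ lie_mem_eig h2 h6, rfl⟩⟩)
    · refine (sm_one ⟨c, h0, Or.inl ⟨hb _ h1 _ (hb _ h3 _ h5), ?_⟩⟩).mono one_le_two
      have := lie_mem_eig h2 (lie_mem_eig h4 h6)
      rwa [add_neg_cancel, add_zero] at this

theorem itg_prj (ht : TRStmt) {D : ℕ} (hD : 0 < D) :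
    ∃ N, 0 < N ∧ ∀ s, Lv π b D s → ∀ c, Itg (lat b) N (prj (s : L) c) := by
  choose N hN h using fun c : ℚ =>
    itg_aeval (Λ := lat b) hD (Lagrange.basis (spec (π.s₁ : L)) id c)
  refine ⟨∏ c ∈ spec (π.s₁ : L), N c, Finset.prod_pos fun c _ => hN c, fun s hs c x hx => ?_⟩
  have e := (adm_spec π ht hs.1).2
  unfold prj
  split_ifs with hc
  · rw [e] at hc ⊢
    obtain ⟨k, hk⟩ := Finset.dvd_prod_of_mem N hc
    rw [hk, Nat.cast_mul, mul_comm, mul_smul]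
    refine lat_nat_smul (h c _ (fun y hy => ?_) x hx) k
    rw [ad_apply, ← smul_lie]
    exact hb _ hs.2 _ hy
  · simp

theorem good_res (ht : TRStmt) (x : Pm π) (v : Pm π → Lo π) (hv : Good (Lv π b) (Ty π b) v) :
    Good (Lv π b) (Ty π b) fun s => res π x (v s) := by
  refine hv.map (K' := (spec (π.s₁ : L)).card * 2) fun D hD => ?_
  obtain ⟨N, hN, h⟩ := itg_prj π hb ht hD
  obtain ⟨N', hN', h'⟩ := exists_smul_mem_lat b (x : L)
  refine ⟨N * N', mul_pos hN hN', fun s hs z hz => ?_⟩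
  obtain ⟨hd, e⟩ := adm_spec π ht hs.1
  let y : ℚ → Pm π := fun c => ⟨(N : ℚ) • prj (s : L) c ((N' : ℚ) • (x : L)),
    Submodule.smul_mem _ _ (prj_mem_of_stable (fun _ hy => lie_mem_par s.2 hy)
      (Submodule.smul_mem _ _ x.2) c)⟩
  have e2 : ((N * N' : ℕ) : ℚ) • res π x z = ∑ c ∈ spec (s : L), res π (y c) z := by
    refine Subtype.ext ?_
    rw [Submodule.coe_sum]
    simp only [res_apply, y]
    rw [← sum_lie, ← Finset.smul_sum, hd.sum_prj_apply, smul_smul, ← Nat.cast_mul, smul_lie]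
    rfl
  rw [e2, ← e]
  exact sm_sum _ fun c _ => ty_lie π hb s (y c) (h s hs c _ h')
    (Submodule.smul_mem _ _ (hd.prj_mem c _)) z hz

theorem good_self (ht : TRStmt) (v : Pm π → Lo π)
    (hv : ∀ D : ℕ, 0 < D → ∃ N : ℕ, 0 < N ∧ ∀ s, Lv π b D s → (N : ℚ) • v s ∈ latLo π b) :
    Good (Lv π b) (Ty π b) fun s => res π s (v s) := by
  refine ⟨(spec (π.s₁ : L)).card * 1, fun D hD => ?_⟩
  obtain ⟨N, hN, h⟩ := itg_prj π hb ht hD
  obtain ⟨N', hN', h'⟩ := hv D hD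
  refine ⟨N * (D * N'), by positivity, fun s hs => ?_⟩
  obtain ⟨hd, e⟩ := adm_spec π ht hs.1
  let w : Lo π := ((D * N' : ℕ) : ℚ) • res π s (v s)
  have hw : (w : L) ∈ lat b := by
    have := hb _ hs.2 _ (h' s hs)
    rw [smul_lie] at this
    convert this using 1
    simp [w, mul_smul]
  let y : ℚ → Lo π := fun c => ⟨(N : ℚ) • prj (s : L) c w,
    Submodule.smul_mem _ _ (prj_mem_of_stable (fun _ hy => lie_mem_lo π s.2 hy) w.2 c)⟩
  have e2 : ((N * (D * N') : ℕ) : ℚ) • res π s (v s) = ∑ c ∈ spec (s : L), y c := by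
    refine Subtype.ext ?_
    rw [Submodule.coe_sum]
    simp only [y]
    rw [← Finset.smul_sum, hd.sum_prj_apply, Nat.cast_mul, mul_smul]
    rfl
  rw [e2, ← e]
  refine sm_sum _ fun c _ => ?_
  by_cases h0 : c = 0
  · have : y c = 0 := by
      refine Subtype.ext ?_
      have h2 := hd.prj_lie (mem_eig_zero.2 (lie_self (s : L))) 0 (v s : L)
      rw [mem_eig_zero.1 (hd.prj_mem 0 _), add_zero] at h2
      simp [y, w, h0, h2]
    rw [this]
    exact sm_zero _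
  · exact sm_one ⟨c, h0, Or.inl ⟨h s hs c _ hw, Submodule.smul_mem _ _ (hd.prj_mem c _)⟩⟩

omit [Module.Finite ℚ L] in
theorem itg_res {N : ℕ} {x : Pm π} (h : (N : ℚ) • (x : L) ∈ lat b) :
    Itg (latLo π b) N (res π x) := fun t ht => by
  have := hb _ h _ ht
  rwa [smul_lie] at this

omit hb in
theorem fin (ht : TRStmt) (hu : UIStmt) : FinStmt := by
  intro L _ _ _ _ τ π n b hb X₀ hX₀
  obtain ⟨l, r, hl, hE⟩ := hu (Lo π) (Set.range (res π)) (res_irr π) _ (trace_ne π)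
  have hi : ∀ a ∈ Algebra.adjoin ℚ (Set.range (res π)), ∃ N, 0 < N ∧ Itg (latLo π b) N a :=
    fun a ha => itg_adjoin (by
      rintro _ ⟨x, rfl⟩
      obtain ⟨N, hN, h⟩ := exists_smul_mem_lat b (x : L)
      exact ⟨N, hN, itg_res π hb h⟩) ha
  let E : Pm π → Module.End ℚ (Lo π) := fun s => (l.map fun a => a.1 * res π s * a.2).sum
  let v : Pm π → Lo π := fun s => aeval (E s) r ⟨X₀, hX₀⟩
  have hg : Good (Lv π b) (Ty π b) fun s => E s (v s) := by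
    refine good_list (ty_smul π b) l (fun s a => a.1 * res π s * a.2) v fun a ha => ?_
    refine good_adjoin (ty_smul π b) ?_ (hl a ha).1 _
      (good_self π hb ht (fun s => a.2 (v s)) fun D hD => ?_)
    · rintro _ ⟨x, rfl⟩
      exact good_res π hb ht x
    · obtain ⟨N₁, hN₁, h1⟩ := itg_list (Λ := latLo π b) hD l fun a ha =>
        ⟨hi _ (hl a ha).1, hi _ (hl a ha).2⟩
      obtain ⟨N₂, hN₂, h2⟩ := itg_aeval (Λ := latLo π b) hN₁ r
      obtain ⟨N₃, hN₃, h3⟩ := hi _ (hl a ha).2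
      obtain ⟨N₄, hN₄, h4⟩ := exists_smul_mem_lat b X₀
      refine ⟨N₃ * N₂ * N₄, by positivity, fun s hs => ?_⟩
      have := h3.mul (h2 _ (h1 _ (itg_res π hb hs.2))) ((N₄ : ℚ) • ⟨X₀, hX₀⟩) h4
      rwa [map_smul, smul_smul, ← Nat.cast_mul] at this
  obtain ⟨K, hK⟩ := hg
  refine ⟨K, fun D hD => ?_⟩
  obtain ⟨N, hN, h⟩ := hK D hD
  refine ⟨N, hN, fun s hs hD => ?_⟩
  obtain ⟨l', h1, h2, h3⟩ := h ⟨s, hs.1⟩ ⟨hs, hD⟩
  obtain ⟨g, g', y, e1, e2, e3, e4⟩ := adm_conj π (s := ⟨s, hs.1⟩) hs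
  have e5 := LinearMap.congr_fun (hE g g' _ _ y e1 e2 e3
    (Algebra.subset_adjoin ⟨_, rfl⟩) e4) ⟨X₀, hX₀⟩
  have e6 : E ⟨s, hs.1⟩ (v ⟨s, hs.1⟩) = ⟨X₀, hX₀⟩ := e5
  refine ⟨l'.map Subtype.val, by simpa using h1, ?_, fun z hz => ?_⟩
  · have := map_list_sum (Lo π).subtype l'
    rw [h2.trans (congrArg _ e6)] at this
    exact this.symm
  · obtain ⟨z, hz', rfl⟩ := List.mem_map.1 hz
    obtain ⟨d, hd, ⟨h4, h5⟩ | ⟨x, t, h4, h5, h6, h7, rfl⟩⟩ := h3 z hz'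
    · exact ⟨d, hd, Or.inl ⟨z.2, h4, h5⟩⟩
    · exact ⟨d, hd, Or.inr ⟨x, t, x.2, h4, h5, t.2, h6, h7, rfl⟩⟩

end Pool.Agent.MP_2b113a_an.H2
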