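import Pool.Agent.MP_2b113a_an.H2.MLA
import Pool.Agent.MP_2b113a_an.H33.LieA

/-!
The lemma of Margulis.
-/

set_option linter.unusedSectionVars false

namespace Pool.Agent.MP_2b113a_an.H2

open MeasureTheory Filter Topology Pool.Agent.MP_2b113a_an.H33

variable {L : Type} [LieRing L] [LieAlgebra ℚ L] [Module.Finite ℚ L]
  {V : Type} [NormedAddCommGroup V] [NormedSpace ℝ V] [FiniteDimensional ℝ V]
  {G : Type} [Group G] [TopologicalSpace G] [IsTopologicalGroup G] (𝒢 : LG L V G)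

open Classical in
/-- the real projection on a sum of eigenspaces -/
noncomputable def P (σ : L) (p : ℚ → Prop) : V →L[ℝ] V :=
  𝒢.ext (∑ c ∈ (spec σ).filter p, prj σ c)

lemma P_mem {σ : L} (hσ : Diag σ) (p : ℚ → Prop) (W : Submodule ℝ V)
    (h : ∀ c, p c → ∀ y ∈ eig σ c, 𝒢.j y ∈ W) (x : V) : P 𝒢 σ p x ∈ W := by
  classical
  have : Submodule.span ℝ (Set.range 𝒢.j) ≤ W.comap (P 𝒢 σ p : V →ₗ[ℝ] V) := by
    rw [Submodule.span_le]
    rintro _ ⟨y, rfl⟩
    change P 𝒢 σ p (𝒢.j y) ∈ W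
    rw [P, 𝒢.ext_j, LinearMap.sum_apply, map_sum]
    exact W.sum_mem fun c hc => h c (Finset.mem_filter.1 hc).2 _ (hσ.prj_mem c y)
  rw [𝒢.span_j] at this
  exact this Submodule.mem_top

lemma P_zero {σ z : L} {p : ℚ → Prop} (hp : ¬ p 0) (hz : z ∈ eig σ 0) : P 𝒢 σ p (𝒢.j z) = 0 := by
  classical
  rw [P, 𝒢.ext_j, LinearMap.sum_apply, Finset.sum_eq_zero, map_zero]
  exact fun c hc => prj_ne hz fun e => hp (e ▸ (Finset.mem_filter.1 hc).2)

lemma P_sum {σ : L} (hσ : Diag σ) :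
    [P 𝒢 σ (· < 0), P 𝒢 σ (· = 0), P 𝒢 σ (0 < ·)].sum = 1 := by
  classical
  simp only [List.sum_cons, List.sum_nil, add_zero, P, ← map_add]
  rw [← map_one 𝒢.ext, ← hσ.sum_prj]
  congr 1
  simp only [Finset.sum_filter, ← Finset.sum_add_distrib]
  refine Finset.sum_congr rfl fun c _ => ?_
  rcases lt_trichotomy c 0 with h | h | h
  · simp [h, h.ne, h.not_gt]
  · simp [h]
  · simp [h, h.ne', h.not_gt]

lemma exists_list {x₀ : V} (h : Submodule.span ℝ (Set.range fun g => 𝒢.Ad g x₀) = ⊤) :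
    ∃ l : List (V →L[ℝ] V), l.sum = 1 ∧ ∀ p ∈ l, ∃ g, ∀ x, ∃ s : ℝ, p x = s • 𝒢.Ad g x₀ := by
  set A := AddSubmonoid.closure {T : V →L[ℝ] V | ∃ g, ∀ x, ∃ s : ℝ, T x = s • 𝒢.Ad g x₀} with hA
  have h1 : ∀ v : V, ∀ φ : V →L[ℝ] ℝ, φ.smulRight v ∈ A := fun v => by
    have hv : v ∈ Submodule.span ℝ (Set.range fun g => 𝒢.Ad g x₀) := h ▸ Submodule.mem_top
    induction hv using Submodule.span_induction with
    | mem v hv =>
      obtain ⟨g, rfl⟩ := hv
      exact fun φ => AddSubmonoid.subset_closure ⟨g, fun x => ⟨φ x, rfl⟩⟩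
    | zero =>
      intro φ
      have : φ.smulRight (0 : V) = 0 := by ext x; simp
      rw [this]
      exact A.zero_mem
    | add v w _ _ hv hw =>
      intro φ
      have : φ.smulRight (v + w) = φ.smulRight v + φ.smulRight w := by ext x; simp
      rw [this]
      exact A.add_mem (hv φ) (hw φ)
    | smul c v _ hv =>
      intro φ
      have : φ.smulRight (c • v) = (c • φ).smulRight v := by
        ext x
        simp [smul_smul, mul_comm]
      rw [this]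
      exact hv _
  have h2 : (1 : V →L[ℝ] V) ∈ A := by
    let b := Module.finBasis ℝ V
    have : (1 : V →L[ℝ] V) =
        ∑ i, (LinearMap.toContinuousLinearMap (b.coord i)).smulRight (b i) := by
      ext x
      simp
    rw [this]
    exact A.sum_mem fun i _ => h1 _ _
  obtain ⟨l, hl, e⟩ := AddSubmonoid.exists_list_of_mem_closure h2
  exact ⟨l, e, hl⟩

lemma tendsto_prod (hF : 𝒢.Facts) (l : List (V →L[ℝ] V)) :
    Tendsto (fun x => (l.map fun p => 𝒢.E (p x)).prod) (𝓝 0) (𝓝 1) := by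
  induction l with
  | nil => simpa using tendsto_const_nhds
  | cons p l ih =>
    have h1 : Tendsto (fun x => 𝒢.E (p x)) (𝓝 0) (𝓝 1) := by
      have := (𝒢.cont_E.comp p.continuous).tendsto 0
      simpa [Function.comp_def, hF.E_zero] using this
    simpa using h1.mul ih

lemma E_neg (hF : 𝒢.Facts) (s : ℝ) (x : V) : 𝒢.E ((-s) • x) = (𝒢.E (s • x))⁻¹ := by
  rw [eq_inv_iff_mul_eq_one, ← hF.E_smul, neg_add_cancel, zero_smul, hF.E_zero]

lemma mem_of_small (hF : 𝒢.Facts) (S : Subgroup G) (x : V)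
    (h : ∀ᶠ t in 𝓝 (0 : ℝ), 𝒢.E (t • x) ∈ S) (t : ℝ) : 𝒢.E (t • x) ∈ S := by
  have h1 : Tendsto (fun n : ℕ => t / n) atTop (𝓝 0) := tendsto_const_div_atTop_nhds_zero_nat t
  obtain ⟨n, hn, hn0⟩ := ((h1.eventually h).and (eventually_gt_atTop 0)).exists
  have h2 : ∀ k : ℕ, 𝒢.E ((k * (t / n)) • x) ∈ S := fun k => by
    induction k with
    | zero => simp [hF.E_zero]
    | succ k ih =>
      rw [Nat.cast_succ, add_mul, one_mul, hF.E_smul]
      exact S.mul_mem ih hn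
  have h3 := h2 n
  rwa [mul_div_cancel₀ _ (by positivity)] at h3

theorem ml : MLStmt := by
  intro L _ _ _ V _ _ _ G _ _ _ _ _ _ _ _ m _ _ Γ _ Λ 𝒢 hF hc σ s X₀ d h Φ hσ hE hX hd hX0 hh hε
    ha hpos z hz
  let S : Subgroup G :=
    { carrier := {g | ∀ ψ, Φ (rt m g ψ) = Φ ψ}
      mul_mem' := fun {g g'} hg hg' ψ => by rw [hc.rt_mul, hg', hg]
      one_mem' := fun ψ => by rw [hc.rt_one]
      inv_mem' := fun {g} hg ψ => by rw [← hg, ← hc.rt_mul, inv_mul_cancel, hc.rt_one] }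
  have hS : IsClosed (S : Set G) := by
    have : (S : Set G) = ⋂ ψ, {g | Φ (rt m g ψ) = Φ ψ} := by
      ext g
      simp only [Set.mem_iInter]
      rfl
    rw [this]
    exact isClosed_iInter fun ψ =>
      isClosed_eq (Φ.continuous.comp (hc.cont_rt ψ)) continuous_const
  obtain ⟨f, hf, -⟩ := hF.sub S hS
  obtain ⟨N, c, hN, h1N, hcc, hc1, hprod, hinv⟩ := 𝒢.chart _ (P_sum 𝒢 hσ)
  set a := 𝒢.E (𝒢.j σ) with had
  have hAd : ∀ e, ∀ y ∈ eig σ e, 𝒢.Ad a (𝒢.j y) = Real.exp e • 𝒢.j y := fun e y hy => by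
    simpa using hF.Ad_eig σ e y hy 1
  set mm : G → G := fun w => 𝒢.E (P 𝒢 σ (· = 0) (c w)) with hmm
  have hD : Dec Φ a N mm := fun w hw => by
    refine ⟨𝒢.E (P 𝒢 σ (· < 0) (c w)), 𝒢.E (P 𝒢 σ (0 < ·) (c w)), ?_, ?_, ?_, ?_⟩
    · have := hprod w hw
      simp only [List.map_cons, List.map_nil, List.prod_cons, List.prod_nil, mul_one] at this
      rw [mul_assoc]
      exact this.symm
    · have := (hf _).1 (P_mem 𝒢 hσ (0 < ·) f
        (fun e he y hy => (hf _).2 fun t => hpos y (mem_pos he hy) t) (c w)) 1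
      rw [one_smul] at this
      exact this
    · have h2 := P_mem 𝒢 hσ (· = 0) (LinearMap.eqLocus (𝒢.Ad a : V →ₗ[ℝ] V) LinearMap.id)
        (fun e he y hy => by
          change 𝒢.Ad a (𝒢.j y) = 𝒢.j y
          rw [hAd e y hy, he]
          simp) (c w)
      have h3 : 𝒢.Ad a (P 𝒢 σ (· = 0) (c w)) = P 𝒢 σ (· = 0) (c w) := h2
      have h4 := 𝒢.E_conj a (P 𝒢 σ (· = 0) (c w))
      rw [h3, mul_inv_eq_iff_eq_mul] at h4
      exact h4
    · let W : Submodule ℝ V :=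
        { carrier := {v | Tendsto (fun k : ℕ => 𝒢.Ad (a ^ k) v) atTop (𝓝 0)}
          add_mem' := fun {v v'} hv hv' => by simpa using Tendsto.add hv hv'
          zero_mem' := by simp
          smul_mem' := fun r v hv => by
            simpa only [Set.mem_ofPred_eq, map_smul, smul_zero] using Tendsto.const_smul hv r }
      have h2 : Tendsto (fun k : ℕ => 𝒢.Ad (a ^ k) (P 𝒢 σ (· < 0) (c w))) atTop (𝓝 0) :=
        P_mem 𝒢 hσ (· < 0) W (fun e he y hy => by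
          have h3 : ∀ k : ℕ, 𝒢.Ad (a ^ k) (𝒢.j y) = Real.exp e ^ k • 𝒢.j y := fun k => by
            induction k with
            | zero => simp
            | succ k ih =>
              rw [pow_succ, map_mul, mul_apply_eq_comp, hAd e y hy, map_smul, ih,
                smul_smul, pow_succ']
          change Tendsto (fun k : ℕ => 𝒢.Ad (a ^ k) (𝒢.j y)) atTop (𝓝 0)
          simp only [h3]
          have h4 : Real.exp e < 1 := Real.exp_lt_one_iff.2 (by exact_mod_cast he)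
          simpa using (tendsto_pow_atTop_nhds_zero_of_lt_one (Real.exp_pos _).le h4).smul_const
            (𝒢.j y)) (c w)
      have h5 := (𝒢.cont_E.tendsto 0).comp h2
      rw [hF.E_zero] at h5
      exact h5.congr fun k => (𝒢.E_conj _ _).symm
  have hmc : ContinuousOn mm N :=
    (𝒢.cont_E.comp (P 𝒢 σ (· = 0)).continuous).comp_continuousOn hcc
  have step : ∀ (g : G) (r : ℝ), 0 < r → ∀ ψ, ∀ w ∈ N, 𝒢.E (r • 𝒢.Ad g (𝒢.j X₀)) * w ∈ N →
      Φ (rt m (mm (𝒢.E (r • 𝒢.Ad g (𝒢.j X₀)) * w)) ψ) = Φ (rt m (mm w) ψ) := by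
    intro g r hr ψ w hw hw'
    refine pointwise hc hE ha hD hN hmc (fun ε hε0 => ?_) ψ hw hw'
    obtain ⟨Q, hQ, H⟩ := hε ε hε0
    have hQ' : (0 : ℝ) < Q := by exact_mod_cast hQ
    have hd' : (d : ℝ) ≠ 0 := by exact_mod_cast hd
    refine ⟨(g * 𝒢.E ((Real.log (r / Q) / d) • 𝒢.j s))⁻¹, h Q, ?_, H⟩
    rw [inv_inv, hh, 𝒢.E_conj, map_mul, mul_apply_eq_comp, map_smul, map_smul,
      hF.Ad_eig s d X₀ hX, div_mul_cancel₀ _ hd', Real.exp_log (by positivity), map_smul,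
      smul_smul, mul_div_cancel₀ _ hQ'.ne']
  have step' : ∀ (g : G) (r : ℝ) ψ, ∀ w ∈ N, 𝒢.E (r • 𝒢.Ad g (𝒢.j X₀)) * w ∈ N →
      Φ (rt m (mm (𝒢.E (r • 𝒢.Ad g (𝒢.j X₀)) * w)) ψ) = Φ (rt m (mm w) ψ) := by
    intro g r ψ w hw hw'
    rcases lt_trichotomy r 0 with hr | rfl | hr
    · have := step g (-r) (by linarith) ψ _ hw' (by rwa [E_neg 𝒢 hF, inv_mul_cancel_left])
      rw [E_neg 𝒢 hF, inv_mul_cancel_left] at this
      exact this.symm
    · rw [zero_smul, hF.E_zero, one_mul]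
    · exact step g r hr ψ w hw hw'
  have hlist : ∀ l : List (V →L[ℝ] V), (∀ p ∈ l, ∃ g, ∀ x, ∃ r : ℝ, p x = r • 𝒢.Ad g (𝒢.j X₀)) →
      ∀ᶠ x in 𝓝 (0 : V), mm (l.map fun p => 𝒢.E (p x)).prod ∈ S := by
    intro l hl
    induction l with
    | nil =>
      refine Eventually.of_forall fun x => ?_
      simp [hmm, hc1, hF.E_zero]
    | cons p l ih =>
      obtain ⟨g, hg⟩ := hl p List.mem_cons_self
      filter_upwards [ih fun q hq => hl q (List.mem_cons_of_mem _ hq),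
        (tendsto_prod 𝒢 hF l).eventually (hN.mem_nhds h1N),
        (tendsto_prod 𝒢 hF (p :: l)).eventually (hN.mem_nhds h1N)] with x a1 a2 a3
      obtain ⟨r, hr⟩ := hg x
      intro ψ
      rw [List.map_cons, List.prod_cons, hr] at a3 ⊢
      rw [step' g r ψ _ a2 a3]
      exact a1 ψ
  obtain ⟨l, hl1, hl2⟩ := exists_list 𝒢 (hF.orbit X₀ hX0)
  obtain ⟨N', c', hN', h1N', hcc', hc1', hprod', -⟩ := 𝒢.chart l hl1
  have hnear : ∀ᶠ w in 𝓝 (1 : G), mm w ∈ S := by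
    have t1 : Tendsto c' (𝓝 1) (𝓝 0) := hc1' ▸ hcc'.continuousAt (hN'.mem_nhds h1N')
    filter_upwards [t1.eventually (hlist l hl2), hN'.mem_nhds h1N'] with w a1 a2
    rwa [hprod' w a2] at a1
  have t2 : Tendsto (fun t : ℝ => t • 𝒢.j z) (𝓝 0) (𝓝 0) := by
    have : Continuous fun t : ℝ => t • 𝒢.j z := by fun_prop
    simpa using this.tendsto 0
  have t3 : Tendsto (fun t : ℝ => 𝒢.E (t • 𝒢.j z)) (𝓝 0) (𝓝 1) :=
    hF.E_zero ▸ (𝒢.cont_E.tendsto 0).comp t2
  have z1 := P_zero 𝒢 (p := (· < 0)) (lt_irrefl _) hz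
  have z2 := P_zero 𝒢 (p := (0 < ·)) (lt_irrefl _) hz
  have z3 : P 𝒢 σ (· = 0) (𝒢.j z) = 𝒢.j z := by
    have := congrArg (fun T : V →L[ℝ] V => T (𝒢.j z)) (P_sum 𝒢 hσ)
    simpa [z1, z2] using this
  refine mem_of_small 𝒢 hF S (𝒢.j z) ?_
  filter_upwards [t3.eventually hnear, t2.eventually hinv] with t a1 a2
  simp only [List.map_cons, List.map_nil, List.prod_cons, List.prod_nil, map_smul, z1, z2, z3,
    smul_zero, hF.E_zero, mul_one, one_mul] at a2
  simpa only [hmm, a2, map_smul, z3] using a1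

end Pool.Agent.MP_2b113a_an.H2
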