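import Pool.Agent.MP_2b113a_an.H33.Defs

/-!
The analytic half of the lemma of Margulis: averaging along an ergodic element.
-/

set_option linter.unusedSectionVars false

namespace Pool.Agent.MP_2b113a_an.H2

open MeasureTheory Filter Topology Pool.Agent.MP_2b113a_an.H33

variable {G : Type} [Group G] [TopologicalSpace G] [IsTopologicalGroup G] [T2Space G]
  [LocallyCompactSpace G] [SecondCountableTopology G] [MeasurableSpace G] [BorelSpace G]
  {m : Measure G} [m.IsHaarMeasure] [m.IsMulRightInvariant] {Γ : Subgroup G}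

section Mul

variable {X : Type} [MeasurableSpace X] {μ : Measure X}

lemma int_mul {χ : X → ℝ} (hχ : Measurable χ) (h1 : ∀ y, |χ y| ≤ 1) (ψ : Lp ℝ 1 μ) :
    Integrable (fun v => ψ v * χ v) μ :=
  (L1.integrable_coeFn ψ).mul_bdd (c := 1) hχ.aestronglyMeasurable (ae_of_all _ h1)

/-- multiplication by a bounded function -/
noncomputable def mul {χ : X → ℝ} (hχ : Measurable χ) (h1 : ∀ y, |χ y| ≤ 1) (ψ : Lp ℝ 1 μ) :
    Lp ℝ 1 μ := (int_mul hχ h1 ψ).toL1 _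

lemma mul_ae {χ : X → ℝ} (hχ : Measurable χ) (h1 : ∀ y, |χ y| ≤ 1) (ψ : Lp ℝ 1 μ) :
    mul hχ h1 ψ =ᵐ[μ] fun v => ψ v * χ v := Integrable.coeFn_toL1 _

lemma norm_mul_le {χ : X → ℝ} (hχ : Measurable χ) (h1 : ∀ y, |χ y| ≤ 1) (ψ : Lp ℝ 1 μ) :
    ‖mul hχ h1 ψ‖ ≤ ‖ψ‖ := by
  refine Lp.norm_le_norm_of_ae_le ?_
  filter_upwards [mul_ae hχ h1 ψ] with v hv
  rw [hv, norm_mul]
  exact mul_le_of_le_one_right (norm_nonneg _) (h1 v)

lemma coe_sum (s : Finset ℕ) (f : ℕ → Lp ℝ 1 μ) :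
    (∑ k ∈ s, f k : Lp ℝ 1 μ) =ᵐ[μ] fun v => ∑ k ∈ s, f k v := by
  classical
  induction s using Finset.induction_on with
  | empty =>
    simp only [Finset.sum_empty]
    exact Lp.coeFn_zero ℝ 1 μ
  | insert a s ha ih =>
    simp only [Finset.sum_insert ha]
    filter_upwards [Lp.coeFn_add (f a) (∑ k ∈ s, f k), ih] with v h1 h2
    rw [h1, Pi.add_apply, h2]

end Mul

lemma lt_ae (g : G) (ψ : Lp ℝ 1 m) : lt m g ψ =ᵐ[m] fun y => ψ (g⁻¹ * y) :=
  Lp.coeFn_compMeasurePreserving ψ (measurePreserving_mul_left m g⁻¹)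

lemma rt_ae (g : G) (ψ : Lp ℝ 1 m) : rt m g ψ =ᵐ[m] fun y => ψ (y * g⁻¹) :=
  Lp.coeFn_compMeasurePreserving ψ (measurePreserving_mul_right m g⁻¹)

/-- the mean over the fundamental domain -/
noncomputable def mean (Λ : Lat m Γ) (χ : G → ℝ) : ℝ :=
  (m.real {y | Λ.c y = 1})⁻¹ * ∫ z in {y | Λ.c y = 1}, χ z ∂m

lemma meas_sh {χ : G → ℝ} (hχ : Measurable χ) (x g : G) : Measurable fun y => χ (y * x * g) :=
  hχ.comp ((measurable_mul_const g).comp (measurable_mul_const x))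

lemma erg_L1 {Λ : Lat m Γ} {a : G} (hE : Erg Λ a) {χ : G → ℝ} (hχ : Measurable χ)
    (h1 : ∀ y, |χ y| ≤ 1) (hΓ : ∀ (γ : Γ) y, χ (γ * y) = χ y) (ψ : Lp ℝ 1 m) (g : G) :
    Tendsto (fun T : ℕ => (T : ℝ)⁻¹ • ∑ k ∈ Finset.range T,
      mul (meas_sh hχ (a ^ k) g) (fun _ => h1 _) ψ) atTop (𝓝 (mean Λ χ • ψ)) := by
  rw [tendsto_iff_norm_sub_tendsto_zero]
  refine (hE χ hχ h1 hΓ ψ (L1.integrable_coeFn ψ) g).congr fun T => ?_
  rw [L1.norm_eq_integral_norm]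
  refine integral_congr_ae ?_
  have h2 : ∀ᵐ v ∂m, ∀ k, mul (meas_sh hχ (a ^ k) g) (fun _ => h1 _) ψ v =
      ψ v * χ (v * a ^ k * g) := ae_all_iff.2 fun k => mul_ae _ _ _
  set A := ∑ k ∈ Finset.range T, mul (meas_sh hχ (a ^ k) g) (fun _ => h1 _) ψ with hA
  filter_upwards [Lp.coeFn_sub ((T : ℝ)⁻¹ • A) (mean Λ χ • ψ), Lp.coeFn_smul (T : ℝ)⁻¹ A,
    Lp.coeFn_smul (mean Λ χ) ψ,
    coe_sum (Finset.range T) fun k => mul (meas_sh hχ (a ^ k) g) (fun _ => h1 _) ψ, h2]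
    with v e1 e2 e3 e4 e5
  rw [e1, Pi.sub_apply, e2, e3, Pi.smul_apply, Pi.smul_apply, hA, e4, Real.norm_eq_abs, ← abs_mul]
  simp only [e5, smul_eq_mul, ← Finset.mul_sum, mean]
  congr 1
  ring

/-- The data of a decomposition `w = u * mm w * (invariant element)`. -/
def Dec (Φ : Lp ℝ 1 m →L[ℝ] ℝ) (a : G) (N : Set G) (mm : G → G) : Prop :=
  ∀ w ∈ N, ∃ u p : G, w = u * mm w * p ∧ (∀ ψ, Φ (rt m p ψ) = Φ ψ) ∧ Commute a (mm w) ∧
    Tendsto (fun k : ℕ => a ^ k * u * (a ^ k)⁻¹) atTop (𝓝 1)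

lemma avg_pt (hc : Conv m) {Λ : Lat m Γ} {a : G} (hE : Erg Λ a) {Φ : Lp ℝ 1 m →L[ℝ] ℝ}
    (ha : ∀ ψ, Φ (rt m a ψ) = Φ ψ) {N : Set G} {mm : G → G} (hD : Dec Φ a N mm) {χ : G → ℝ}
    (hχ : Measurable χ) (h1 : ∀ y, |χ y| ≤ 1) (hΓ : ∀ (γ : Γ) y, χ (γ * y) = χ y) (ψ : Lp ℝ 1 m)
    {w : G} (hw : w ∈ N) :
    Tendsto (fun T : ℕ => (T : ℝ)⁻¹ * ∑ k ∈ Finset.range T,
      Φ (rt m (a ^ k * w) (mul (meas_sh hχ (a ^ k) 1) (fun _ => h1 _) ψ))) atTop
      (𝓝 (mean Λ χ * Φ (rt m (mm w) ψ))) := by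
  obtain ⟨u, p, e, hp, hcm, hu⟩ := hD w hw
  have hak : ∀ (k : ℕ) ψ, Φ (rt m (a ^ k) ψ) = Φ ψ := fun k => by
    induction k with
    | zero => intro ψ; rw [pow_zero, hc.rt_one]
    | succ k ih => intro ψ; rw [pow_succ, hc.rt_mul, ha, ih]
  set η : ℕ → Lp ℝ 1 m := fun k =>
    rt m (a ^ k * u * (a ^ k)⁻¹) (mul (meas_sh hχ (a ^ k) 1) (fun _ => h1 _) ψ) with hη
  set ζ : ℕ → Lp ℝ 1 m := fun k => mul (meas_sh hχ (a ^ k) u⁻¹) (fun _ => h1 _) ψ with hζ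
  have e1 : ∀ k : ℕ, Φ (rt m (a ^ k * w) (mul (meas_sh hχ (a ^ k) 1) (fun _ => h1 _) ψ)) =
      Φ (rt m (mm w) (η k)) := fun k => by
    have : a ^ k * w = a ^ k * u * (a ^ k)⁻¹ * mm w * a ^ k * p := by
      rw [mul_assoc _ (mm w), ← (hcm.pow_left k).eq]
      conv_lhs => rw [e]
      group
    rw [this, hc.rt_mul, hp, hc.rt_mul, hak, hc.rt_mul]
  have e2 : Tendsto (fun k => η k - ζ k) atTop (𝓝 0) := by
    have h0 : Tendsto (fun k : ℕ => ‖rt m (a ^ k * u * (a ^ k)⁻¹) ψ - ψ‖) atTop (𝓝 0) := by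
      rw [← tendsto_iff_norm_sub_tendsto_zero]
      have := ((hc.cont_rt ψ).tendsto 1).comp hu
      rwa [hc.rt_one] at this
    refine squeeze_zero_norm (fun k => Lp.norm_le_norm_of_ae_le ?_) h0
    set x := a ^ k * u * (a ^ k)⁻¹ with hx
    have q := (measurePreserving_mul_right m x⁻¹).quasiMeasurePreserving.ae_eq_comp
      (mul_ae (meas_sh hχ (a ^ k) 1) (fun _ => h1 _) ψ)
    filter_upwards [Lp.coeFn_sub (η k) (ζ k), Lp.coeFn_sub (rt m x ψ) ψ, rt_ae x ψ,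
      rt_ae x (mul (meas_sh hχ (a ^ k) 1) (fun _ => h1 _) ψ), q,
      mul_ae (meas_sh hχ (a ^ k) u⁻¹) (fun _ => h1 _) ψ] with v a1 a2 a3 a4 a5 a6
    simp only [Function.comp_apply] at a5
    have a7 : v * x⁻¹ * a ^ k * 1 = v * a ^ k * u⁻¹ := by rw [hx]; group
    rw [a1, a2, Pi.sub_apply, Pi.sub_apply, a3, hη, hζ]
    simp only
    rw [a4, a5, a6, a7, ← sub_mul, norm_mul]
    exact mul_le_of_le_one_right (norm_nonneg _) (h1 _)
  have e3 := e2.cesaro_smul.add (erg_L1 hE hχ h1 hΓ ψ u⁻¹)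
  rw [zero_add] at e3
  have e4 := ((Φ.continuous.comp (rt m (mm w)).continuous).tendsto _).comp e3
  simp only [Function.comp_apply, map_smul, smul_eq_mul] at e4
  refine e4.congr fun T => ?_
  simp only [Function.comp_apply, e1, ← smul_add, ← Finset.sum_add_distrib, map_smul, map_sum,
    smul_eq_mul]
  congr 1
  refine Finset.sum_congr rfl fun k _ => ?_
  rw [sub_add_cancel]

lemma avg_int (hc : Conv m) {Λ : Lat m Γ} {a : G} (hE : Erg Λ a) {Φ : Lp ℝ 1 m →L[ℝ] ℝ}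
    (ha : ∀ ψ, Φ (rt m a ψ) = Φ ψ) {N : Set G} {mm : G → G} (hD : Dec Φ a N mm) {χ : G → ℝ}
    (hχ : Measurable χ) (h1 : ∀ y, |χ y| ≤ 1) (hΓ : ∀ (γ : Γ) y, χ (γ * y) = χ y) (ψ ρ : Lp ℝ 1 m)
    (hρ : ∀ᵐ w ∂m, w ∉ N → ρ w = 0) :
    Tendsto (fun T : ℕ => (T : ℝ)⁻¹ * ∑ k ∈ Finset.range T,
      ∫ v, ψ v * χ (v * a ^ k * 1) * Φ (lt m (v * a ^ k) ρ) ∂m) atTop
      (𝓝 (mean Λ χ * ∫ w, ρ w * Φ (rt m (mm w) ψ) ∂m)) := by
  set f : ℕ → G → ℝ := fun k w =>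
    Φ (rt m (a ^ k * w) (mul (meas_sh hχ (a ^ k) 1) (fun _ => h1 _) ψ)) with hf
  have fc : ∀ k, Continuous (f k) := fun k =>
    Φ.continuous.comp ((hc.cont_rt _).comp (continuous_const.mul continuous_id))
  have fb : ∀ k w, |f k w| ≤ ‖Φ‖ * ‖ψ‖ := fun k w => by
    refine (Φ.le_opNorm _).trans ?_
    rw [LinearIsometry.norm_map]
    exact mul_le_mul_of_nonneg_left (norm_mul_le _ _ _) (norm_nonneg _)
  have fi : ∀ k, Integrable (fun w => ρ w * f k w) m := fun k =>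
    (L1.integrable_coeFn ρ).mul_bdd (fc k).aestronglyMeasurable (ae_of_all _ (fb k))
  have e1 : ∀ k : ℕ, ∫ v, ψ v * χ (v * a ^ k * 1) * Φ (lt m (v * a ^ k) ρ) ∂m =
      ∫ w, ρ w * f k w ∂m := fun k => by
    have h2 := hc.conv Φ (mul (meas_sh hχ (a ^ k) 1) (fun _ => h1 _) ψ) (lt m (a ^ k) ρ)
    have h3 : ∫ v, ψ v * χ (v * a ^ k * 1) * Φ (lt m (v * a ^ k) ρ) ∂m =
        ∫ y, mul (meas_sh hχ (a ^ k) 1) (fun _ => h1 _) ψ y * Φ (lt m y (lt m (a ^ k) ρ)) ∂m := by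
      refine integral_congr_ae ?_
      filter_upwards [mul_ae (meas_sh hχ (a ^ k) 1) (fun _ => h1 _) ψ] with v hv
      rw [hv, hc.lt_mul]
    rw [h3, h2, ← integral_mul_left_eq_self (fun w => ρ w * f k w) (a ^ k)⁻¹]
    refine integral_congr_ae ?_
    filter_upwards [lt_ae (a ^ k) ρ] with v hv
    simp only [hv, hf, mul_inv_cancel_left]
  have e2 := tendsto_integral_of_dominated_convergence (μ := m)
    (F := fun (T : ℕ) w => ρ w * ((T : ℝ)⁻¹ * ∑ k ∈ Finset.range T, f k w))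
    (f := fun w => ρ w * (mean Λ χ * Φ (rt m (mm w) ψ))) (fun w => ‖ρ w‖ * (‖Φ‖ * ‖ψ‖))
    (fun T => (Lp.aestronglyMeasurable ρ).mul
      (continuous_const.mul (continuous_finsetSum _ fun k _ => fc k)).aestronglyMeasurable)
    ((L1.integrable_coeFn ρ).norm.mul_const _)
    (fun T => ae_of_all _ fun w => by
      rw [norm_mul]
      refine mul_le_mul_of_nonneg_left ?_ (norm_nonneg _)
      rw [Real.norm_eq_abs, abs_mul, abs_of_nonneg (by positivity)]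
      have h4 : |∑ k ∈ Finset.range T, f k w| ≤ T * (‖Φ‖ * ‖ψ‖) := by
        refine (Finset.abs_sum_le_sum_abs _ _).trans ?_
        simpa using Finset.sum_le_card_nsmul (Finset.range T) _ _ fun k _ => fb k w
      rcases Nat.eq_zero_or_pos T with rfl | hT
      · simp only [Nat.cast_zero, inv_zero, zero_mul]
        positivity
      · rwa [inv_mul_le_iff₀ (by positivity)])
    (by
      filter_upwards [hρ] with w hw
      by_cases h : w ∈ N
      · exact (avg_pt hc hE ha hD hχ h1 hΓ ψ h).const_mul _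
      · simp [hw h])
  have e3 : ∫ w, ρ w * (mean Λ χ * Φ (rt m (mm w) ψ)) ∂m =
      mean Λ χ * ∫ w, ρ w * Φ (rt m (mm w) ψ) ∂m := by
    rw [← integral_const_mul]
    exact integral_congr_ae (ae_of_all _ fun w => by ring)
  rw [e3] at e2
  refine e2.congr fun T => ?_
  simp only [e1]
  rw [← integral_finsetSum _ fun k _ => fi k, ← integral_const_mul]
  refine integral_congr_ae (ae_of_all _ fun w => ?_)
  simp only [← Finset.mul_sum]
  ring

omit [T2Space G] [LocallyCompactSpace G] [SecondCountableTopology G] [m.IsMulRightInvariant] in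
lemma mean_pos [Countable Γ] (Λ : Lat m Γ) {O : Set G} (hO : IsOpen O) (hne : O.Nonempty)
    (hΓ : ∀ (γ : Γ) y, (γ : G) * y ∈ O ↔ y ∈ O) : 0 < mean Λ (O.indicator 1) := by
  have h1 : m (O ∩ {y | Λ.c y = 1}) ≠ 0 := fun h0 => by
    have h2 : O ⊆ ⋃ γ : Γ, (fun y => (γ : G) * y) ⁻¹' (O ∩ {y | Λ.c y = 1}) := fun y hy =>
      Set.mem_iUnion.2 ⟨(Λ.c y)⁻¹, (hΓ _ _).2 hy, by
        simp only [Set.mem_ofPred_eq]
        rw [Λ.c_mul, inv_mul_cancel]⟩
    refine (hO.measure_pos m hne).ne' (measure_mono_null h2 (measure_iUnion_null fun γ => ?_))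
    rw [measure_preimage_mul, h0]
  have h3 : m (O ∩ {y | Λ.c y = 1}) ≤ m {y | Λ.c y = 1} := measure_mono Set.inter_subset_right
  have h4 : 0 < m.real (O ∩ {y | Λ.c y = 1}) :=
    ENNReal.toReal_pos h1 (ne_top_of_le_ne_top Λ.fin h3)
  have h5 : 0 < m.real {y | Λ.c y = 1} :=
    h4.trans_le (measureReal_mono Set.inter_subset_right Λ.fin)
  rw [mean, integral_indicator_one hO.measurableSet, measureReal_restrict_apply hO.measurableSet]
  positivity

lemma claim [Countable Γ] (hc : Conv m) {Λ : Lat m Γ} {a : G} (hE : Erg Λ a)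
    {Φ : Lp ℝ 1 m →L[ℝ] ℝ} (ha : ∀ ψ, Φ (rt m a ψ) = Φ ψ) {N : Set G} {mm : G → G}
    (hD : Dec Φ a N mm) {g₀ : G}
    (hg : ∀ ε : ℝ, 0 < ε → ∃ (g : G) (h : Γ), g₀ = g⁻¹ * h * g ∧ ∀ (γ : Γ) ψ,
      |Φ (lt m (γ * h * γ⁻¹ : Γ) ψ) - Φ ψ| ≤ ε * ‖ψ‖)
    (ψ ρ : Lp ℝ 1 m) (hρ : ∀ᵐ w ∂m, w ∉ N → ρ w = 0)
    (hρ' : ∀ᵐ w ∂m, w ∉ N → lt m g₀ ρ w = 0) :
    ∫ w, lt m g₀ ρ w * Φ (rt m (mm w) ψ) ∂m = ∫ w, ρ w * Φ (rt m (mm w) ψ) ∂m := by
  have key : ∀ ε : ℝ, 0 < ε → |∫ w, lt m g₀ ρ w * Φ (rt m (mm w) ψ) ∂m -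
      ∫ w, ρ w * Φ (rt m (mm w) ψ) ∂m| ≤ ε * ((‖ρ‖ + 2) * ‖ψ‖) := by
    intro ε hε
    obtain ⟨g, h, e, hh⟩ := hg ε hε
    have c1 : Continuous fun b : G => ‖Φ‖ * ‖lt m b (lt m g₀ ρ) - lt m g₀ ρ‖ :=
      continuous_const.mul ((hc.cont_lt _).sub continuous_const).norm
    have c2 : Continuous fun b : G => ‖Φ‖ * ‖lt m b ρ - ρ‖ :=
      continuous_const.mul ((hc.cont_lt _).sub continuous_const).norm
    set O : Set G := ⋃ γ : Γ, {y | ‖Φ‖ * ‖lt m ((γ * g)⁻¹ * y) (lt m g₀ ρ) - lt m g₀ ρ‖ < ε ∧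
      ‖Φ‖ * ‖lt m ((γ * g)⁻¹ * y) ρ - ρ‖ < ε} with hO
    have hOo : IsOpen O := isOpen_iUnion fun γ =>
      (isOpen_lt (c1.comp (continuous_const.mul continuous_id)) continuous_const).inter
        (isOpen_lt (c2.comp (continuous_const.mul continuous_id)) continuous_const)
    have hOn : O.Nonempty := ⟨g, Set.mem_iUnion.2 ⟨1, by simp [hc.lt_one, hε]⟩⟩
    have hO1 : ∀ (γ : Γ) y, y ∈ O → (γ : G) * y ∈ O := fun γ y hy => by
      obtain ⟨δ, hδ⟩ := Set.mem_iUnion.1 hy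
      refine Set.mem_iUnion.2 ⟨γ * δ, ?_⟩
      have : (((γ * δ : Γ) : G) * g)⁻¹ * (γ * y) = (δ * g)⁻¹ * y := by
        rw [Subgroup.coe_mul]; group
      simpa only [Set.mem_ofPred_eq, this] using hδ
    have hO2 : ∀ (γ : Γ) y, (γ : G) * y ∈ O ↔ y ∈ O := fun γ y =>
      ⟨fun hy => by simpa using hO1 γ⁻¹ _ hy, hO1 γ y⟩
    have hd : ∀ (x : G) (η η' : Lp ℝ 1 m), |Φ (lt m x η) - Φ (lt m x η')| ≤ ‖Φ‖ * ‖η - η'‖ :=
      fun x η η' => by
        rw [← map_sub, ← map_sub, ← (lt m x).norm_map (η - η')]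
        exact Φ.le_opNorm _
    have hu : ∀ y ∈ O, |Φ (lt m y (lt m g₀ ρ)) - Φ (lt m y ρ)| ≤ ε * (‖ρ‖ + 2) := fun y hy => by
      obtain ⟨γ, b1, b2⟩ := Set.mem_iUnion.1 hy
      set b := ((γ : G) * g)⁻¹ * y with hb
      have hy' : y = γ * g * b := by rw [hb]; group
      have a1 := hd (γ * g) (lt m b (lt m g₀ ρ)) (lt m g₀ ρ)
      have a2 := hd (γ * g) (lt m b ρ) ρ
      have a3 := hh γ (lt m (γ * g) ρ)
      have a4 : ((γ * h * γ⁻¹ : Γ) : G) * (γ * g) = γ * g * g₀ := by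
        rw [e]; push_cast; group
      rw [← hc.lt_mul, a4, hc.lt_mul, LinearIsometry.norm_map] at a3
      rw [← hc.lt_mul, ← hy'] at a1 a2
      rw [abs_le] at *
      constructor <;> linarith [a1.1, a1.2, a2.1, a2.2, a3.1, a3.2]
    set χ : G → ℝ := O.indicator 1 with hχd
    have hχ : Measurable χ := measurable_one.indicator hOo.measurableSet
    have h0 : ∀ y, 0 ≤ χ y := fun y => Set.indicator_nonneg (fun _ _ => zero_le_one) y
    have h1 : ∀ y, |χ y| ≤ 1 := fun y => by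
      by_cases hy : y ∈ O <;> simp [hχd, hy]
    have hΓ : ∀ (γ : Γ) y, χ (γ * y) = χ y := fun γ y => by
      by_cases hy : y ∈ O
      · simp [hχd, hy, (hO2 γ y).2 hy]
      · simp [hχd, hy, mt (hO2 γ y).1 hy]
    have t1 := ((avg_int hc hE ha hD hχ h1 hΓ ψ _ hρ').sub (avg_int hc hE ha hD hχ h1 hΓ ψ _ hρ)).abs
    have t2 := ((continuous_integral (G := ℝ) (μ := m)).tendsto _).comp
      (erg_L1 hE hχ h1 hΓ |ψ| 1)
    have i1 : ∫ v, (mean Λ χ • |ψ| : Lp ℝ 1 m) v ∂m = mean Λ χ * ‖ψ‖ := by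
      rw [L1.norm_eq_integral_norm, ← integral_const_mul]
      refine integral_congr_ae ?_
      filter_upwards [Lp.coeFn_smul (mean Λ χ) |ψ|, Lp.coeFn_abs ψ] with v a1 a2
      rw [a1, Pi.smul_apply, a2, smul_eq_mul, Real.norm_eq_abs]
    rw [i1] at t2
    have t3 := le_of_tendsto_of_tendsto' t1 (t2.const_mul (ε * (‖ρ‖ + 2))) fun T => by
      have ik : ∀ k : ℕ, Integrable (fun v => |ψ v| * χ (v * a ^ k * 1)) m := fun k =>
        (L1.integrable_coeFn ψ).abs.mul_bdd (c := 1)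
          (meas_sh hχ (a ^ k) 1).aestronglyMeasurable (ae_of_all _ fun _ => h1 _)
      have i2 : ∫ v, ((T : ℝ)⁻¹ • ∑ k ∈ Finset.range T,
          mul (meas_sh hχ (a ^ k) 1) (fun _ => h1 _) |ψ| : Lp ℝ 1 m) v ∂m =
          (T : ℝ)⁻¹ * ∑ k ∈ Finset.range T, ∫ v, |ψ v| * χ (v * a ^ k * 1) ∂m := by
        rw [← integral_finsetSum _ fun k _ => ik k, ← integral_const_mul]
        refine integral_congr_ae ?_
        have h2 : ∀ᵐ v ∂m, ∀ k, mul (meas_sh hχ (a ^ k) 1) (fun _ => h1 _) |ψ| v =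
          (|ψ| : Lp ℝ 1 m) v * χ (v * a ^ k * 1) := ae_all_iff.2 fun k => mul_ae _ _ _
        filter_upwards [Lp.coeFn_smul (T : ℝ)⁻¹ (∑ k ∈ Finset.range T,
          mul (meas_sh hχ (a ^ k) 1) (fun _ => h1 _) |ψ|), Lp.coeFn_abs ψ, h2,
          coe_sum (Finset.range T) fun k => mul (meas_sh hχ (a ^ k) 1) (fun _ => h1 _) |ψ|]
          with v a1 a2 a3 a4
        rw [a1, Pi.smul_apply, a4, smul_eq_mul]
        simp only [a3, a2]
      have il : ∀ (k : ℕ) (η : Lp ℝ 1 m),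
          Integrable (fun v => ψ v * χ (v * a ^ k * 1) * Φ (lt m (v * a ^ k) η)) m := fun k η =>
        (int_mul (meas_sh hχ (a ^ k) 1) (fun _ => h1 _) ψ).mul_bdd (c := ‖Φ‖ * ‖η‖)
          (Φ.continuous.comp ((hc.cont_lt η).comp
            (continuous_id.mul continuous_const))).aestronglyMeasurable
          (ae_of_all _ fun v => by
            rw [← (lt m (v * a ^ k)).norm_map η]
            exact Φ.le_opNorm _)
      simp only [Function.comp_apply]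
      rw [i2, ← mul_sub, ← Finset.sum_sub_distrib, abs_mul, abs_of_nonneg (by positivity),
        mul_left_comm, Finset.mul_sum]
      refine mul_le_mul_of_nonneg_left ((Finset.abs_sum_le_sum_abs _ _).trans
        (Finset.sum_le_sum fun k _ => ?_)) (by positivity)
      rw [← integral_sub (il k _) (il k _), ← integral_const_mul]
      refine abs_integral_le_integral_abs.trans (integral_mono ((il k _).sub (il k _)).abs
        ((ik k).const_mul _) fun v => ?_)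
      simp only [mul_one]
      rw [← mul_sub, abs_mul, abs_mul, abs_of_nonneg (h0 _), mul_comm (ε * _)]
      by_cases hv : v * a ^ k ∈ O
      · exact mul_le_mul_of_nonneg_left (hu _ hv) (mul_nonneg (abs_nonneg _) (h0 _))
      · simp [hχd, hv]
    have hp := mean_pos Λ hOo hOn hO2
    rw [← hχd] at hp
    rw [← mul_sub, abs_mul, abs_of_pos hp] at t3
    refine le_of_mul_le_mul_left (t3.trans (le_of_eq ?_)) hp
    ring
  rw [← sub_eq_zero, ← abs_nonpos_iff]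
  refine le_of_forall_pos_le_add fun δ hδ => ?_
  have hp : 0 < (‖ρ‖ + 2) * ‖ψ‖ + 1 := by positivity
  refine (key (δ / ((‖ρ‖ + 2) * ‖ψ‖ + 1)) (by positivity)).trans ?_
  rw [zero_add, div_mul_eq_mul_div, div_le_iff₀ hp]
  nlinarith

omit [IsTopologicalGroup G] [SecondCountableTopology G] [m.IsMulRightInvariant] in
lemma nonpos_of_int {U : Set G} (hU : IsOpen U) {D : G → ℝ} (hD : ContinuousOn D U)
    (h : ∀ K ⊆ U, IsCompact K → ∫ w in K, D w ∂m = 0) {w : G} (hw : w ∈ U) : D w ≤ 0 := by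
  by_contra hp
  rw [not_le] at hp
  have h1 : IsOpen (U ∩ D ⁻¹' Set.Ioi (D w / 2)) := hD.isOpen_inter_preimage hU isOpen_Ioi
  obtain ⟨K, hK, hwK, hKU⟩ := exists_compact_subset h1 ⟨hw, half_lt_self hp⟩
  have h2 : K ⊆ U := fun x hx => (hKU hx).1
  have h3 := setIntegral_ge_of_const_le_real (μ := m) hK.measurableSet hK.measure_ne_top
    (fun x hx => (hKU hx).2.le) ((hD.mono h2).integrableOn_compact hK)
  have h4 : 0 < m.real K := ENNReal.toReal_pos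
    ((isOpen_interior.measure_pos m ⟨w, hwK⟩).trans_le (measure_mono interior_subset)).ne'
    hK.measure_ne_top
  rw [h K h2 hK] at h3
  have : 0 < D w / 2 * m.real K := by positivity
  linarith

theorem pointwise [Countable Γ] (hc : Conv m) {Λ : Lat m Γ} {a : G} (hE : Erg Λ a)
    {Φ : Lp ℝ 1 m →L[ℝ] ℝ} (ha : ∀ ψ, Φ (rt m a ψ) = Φ ψ) {N : Set G} {mm : G → G}
    (hD : Dec Φ a N mm) (hN : IsOpen N) (hmm : ContinuousOn mm N) {g₀ : G}
    (hg : ∀ ε : ℝ, 0 < ε → ∃ (g : G) (h : Γ), g₀ = g⁻¹ * h * g ∧ ∀ (γ : Γ) ψ,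
      |Φ (lt m (γ * h * γ⁻¹ : Γ) ψ) - Φ ψ| ≤ ε * ‖ψ‖)
    (ψ : Lp ℝ 1 m) {w : G} (hw : w ∈ N) (hw' : g₀ * w ∈ N) :
    Φ (rt m (mm (g₀ * w)) ψ) = Φ (rt m (mm w) ψ) := by
  set F : G → ℝ := fun w => Φ (rt m (mm w) ψ) with hF
  have hFc : ContinuousOn F N := (Φ.continuous.comp (hc.cont_rt ψ)).comp_continuousOn hmm
  set U := N ∩ (fun w => g₀ * w) ⁻¹' N with hU
  have hUo : IsOpen U := hN.inter (hN.preimage (continuous_const.mul continuous_id))
  have c1 : ContinuousOn F U := hFc.mono Set.inter_subset_left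
  have c2 : ContinuousOn (fun w => F (g₀ * w)) U :=
    hFc.comp (continuous_const.mul continuous_id).continuousOn fun x hx => hx.2
  have key : ∀ K ⊆ U, IsCompact K → ∫ w in K, F (g₀ * w) ∂m = ∫ w in K, F w ∂m := by
    intro K hKU hK
    set ρ : Lp ℝ 1 m := indicatorConstLp 1 hK.measurableSet hK.measure_ne_top (1 : ℝ) with hρ
    have r1 : ρ =ᵐ[m] K.indicator fun _ => 1 := indicatorConstLp_coeFn
    have r2 := (measurePreserving_mul_left m g₀⁻¹).quasiMeasurePreserving.ae_eq_comp r1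
    have r3 := claim hc hE ha hD hg ψ ρ
      (by
        filter_upwards [r1] with v a1 hv
        rw [a1, Set.indicator_of_notMem fun hk => hv (hKU hk).1])
      (by
        filter_upwards [r2, lt_ae g₀ ρ] with v a1 a2 hv
        simp only [Function.comp_apply] at a1
        rw [a2, a1, Set.indicator_of_notMem fun hk => hv (by simpa using (hKU hk).2)])
    rw [← integral_indicator hK.measurableSet, ← integral_indicator hK.measurableSet,
      ← integral_mul_left_eq_self (K.indicator fun w => F (g₀ * w)) g₀⁻¹]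
    refine Eq.trans (integral_congr_ae ?_) (r3.trans (integral_congr_ae ?_))
    · filter_upwards [r2, lt_ae g₀ ρ] with v a1 a2
      simp only [Function.comp_apply] at a1
      rw [a2, a1]
      by_cases hv : g₀⁻¹ * v ∈ K <;> simp [hv, hF]
    · filter_upwards [r1] with v a1
      rw [a1]
      by_cases hv : v ∈ K <;> simp [hv, hF]
  have p1 := nonpos_of_int (m := m) (D := fun w => F (g₀ * w) - F w) hUo (c2.sub c1) (fun K hKU hK => by
    rw [integral_sub ((c2.mono hKU).integrableOn_compact hK) ((c1.mono hKU).integrableOn_compact hK),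
      key K hKU hK, sub_self]) ⟨hw, hw'⟩
  have p2 := nonpos_of_int (m := m) (D := fun w => F w - F (g₀ * w)) hUo (c1.sub c2) (fun K hKU hK => by
    rw [integral_sub ((c1.mono hKU).integrableOn_compact hK) ((c2.mono hKU).integrableOn_compact hK),
      key K hKU hK, sub_self]) ⟨hw, hw'⟩
  simp only [hF] at p1 p2
  linarith

end Pool.Agent.MP_2b113a_an.H2
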